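import Pool.Agent.Q298.CQ.J4a

/-!
# Project CQ (helper298): change of variables, T1
-/

set_option autoImplicit false

open MeasureTheory ProbabilityTheory Set Filter Topology
open Pool.Agent.Q298.CQ

namespace Pool.Agent.Q224.CQ.K1

/-! ### integrability -/

lemma gam_int {a : ℝ} (ha : 0 < a) : IntegrableOn (fun q : ℝ => q ^ (a - 1) * Real.exp (-q)) (Ioi 0) := by
  have := Real.GammaIntegral_convergent ha
  refine this.congr_fun (fun x _ => ?_) measurableSet_Ioi
  simp only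
  ring

lemma phi_scale (s : ℝ) {c : ℝ} (hc : 0 < c) (x : ℝ) : phi s (c * x) = c ^ s * phi s x := by
  unfold phi
  rw [abs_mul, abs_of_pos hc, Real.mul_rpow hc.le (abs_nonneg x)]
  have : Real.sign (c * x) = Real.sign x := by
    rcases lt_trichotomy x 0 with h | h | h
    · rw [Real.sign_of_neg h, Real.sign_of_neg (mul_neg_of_pos_of_neg hc h)]
    · rw [h]; simp
    · rw [Real.sign_of_pos h, Real.sign_of_pos (mul_pos hc h)]
  rw [this]
  ring

/-- the integrand in the coordinates `(q, w)` -/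
noncomputable def H (s d D : ℝ) (z : ℝ × ℝ) : ℝ :=
  z.1 ^ 2 * Real.exp (-z.1) * (Real.sqrt (1 - z.2 ^ 2) * phi s (z.1 * (d + D * z.2) - d))

lemma measurable_H (s d D : ℝ) : Measurable (H s d D) := by
  unfold H
  have h1 : Measurable fun z : ℝ × ℝ => phi s (z.1 * (d + D * z.2) - d) :=
    (measurable_phi s).comp (by fun_prop)
  have h2 : Measurable fun z : ℝ × ℝ => z.1 ^ 2 * Real.exp (-z.1) := by fun_prop
  have h3 : Measurable fun z : ℝ × ℝ => Real.sqrt (1 - z.2 ^ 2) := by fun_prop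
  exact h2.mul (h3.mul h1)

lemma sqrt_le_one' (w : ℝ) : Real.sqrt (1 - w ^ 2) ≤ 1 := by
  rw [Real.sqrt_le_iff]
  constructor
  · norm_num
  · nlinarith [sq_nonneg w]

lemma H_le (s d D : ℝ) (q w : ℝ) : |H s d D (q, w)| ≤ q ^ 2 * Real.exp (-q) * |q * (d + D * w) - d| ^ s := by
  unfold H
  simp only
  rw [abs_mul, abs_of_nonneg (show 0 ≤ q ^ 2 * Real.exp (-q) by positivity)]
  apply mul_le_mul_of_nonneg_left _ (by positivity)
  rw [abs_mul, abs_of_nonneg (Real.sqrt_nonneg _)]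
  have h1 := abs_phi_le s (q * (d + D * w) - d)
  have h2 := sqrt_le_one' w
  have h3 := Real.sqrt_nonneg (1 - w ^ 2)
  have h4 := abs_nonneg (phi s (q * (d + D * w) - d))
  nlinarith

lemma H_int_nonneg {s d D : ℝ} (hs : 0 ≤ s) (hd : 0 < d) (hD : 0 < D) :
    Integrable (H s d D) ((volume.restrict (Ioi (0 : ℝ))).prod (volume.restrict (Ioo (-1 : ℝ) 1))) := by
  have i1 := gam_int (show 0 < s + 3 by linarith)
  have i2 := gam_int (show (0 : ℝ) < 3 by norm_num)
  have i3 : IntegrableOn (fun q : ℝ => (d + D) ^ s * 2 ^ s * (q ^ ((3 : ℝ) - 1) * Real.exp (-q) + q ^ (s + 3 - 1) * Real.exp (-q))) (Ioi 0) :=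
    (i2.add i1).const_mul _
  have i4 : IntegrableOn (fun _ : ℝ => (1 : ℝ)) (Ioo (-1 : ℝ) 1) := by
    rw [integrableOn_const_iff]
    right
    rw [Real.volume_Ioo]
    exact ENNReal.ofReal_lt_top
  have i5 := Integrable.mul_prod i3 i4
  refine i5.mono' (measurable_H s d D).aestronglyMeasurable ?_
  rw [Measure.prod_restrict, ae_restrict_iff' (measurableSet_Ioi.prod measurableSet_Ioo)]
  refine Eventually.of_forall fun z hz => ?_
  obtain ⟨q, w⟩ := z
  obtain ⟨hq, hw⟩ := hz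
  have hq0 : 0 < q := hq
  simp only at hw ⊢
  rw [Real.norm_eq_abs]
  refine (H_le s d D q w).trans ?_
  have h1 : |q * (d + D * w) - d| ≤ (d + D) * (1 + q) := by
    have hw1 := hw.1
    have hw2 := hw.2
    have a1 : 0 < q * D := by positivity
    rw [abs_le]
    constructor
    · nlinarith
    · nlinarith
  have h2 : |q * (d + D * w) - d| ^ s ≤ (d + D) ^ s * (2 ^ s * (1 + q ^ s)) := by
    calc _ ≤ ((d + D) * (1 + q)) ^ s := Real.rpow_le_rpow (abs_nonneg _) h1 hs
      _ = (d + D) ^ s * (1 + q) ^ s := Real.mul_rpow (by positivity) (by positivity)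
      _ ≤ (d + D) ^ s * (2 ^ s * (1 + q ^ s)) := by
          apply mul_le_mul_of_nonneg_left _ (by positivity)
          have h3 : 0 ≤ q ^ s := by positivity
          have h4 : (0 : ℝ) ≤ 2 ^ s := by positivity
          rcases le_or_gt q 1 with h | h
          · calc (1 + q) ^ s ≤ 2 ^ s := Real.rpow_le_rpow (by positivity) (by linarith) hs
              _ ≤ _ := by nlinarith
          · calc (1 + q) ^ s ≤ (2 * q) ^ s := Real.rpow_le_rpow (by positivity) (by linarith) hs
              _ = 2 ^ s * q ^ s := Real.mul_rpow (by norm_num) hq0.le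
              _ ≤ _ := by nlinarith
  calc _ ≤ q ^ 2 * Real.exp (-q) * ((d + D) ^ s * (2 ^ s * (1 + q ^ s))) := mul_le_mul_of_nonneg_left h2 (by positivity)
    _ = _ := by
        rw [show (3 : ℝ) - 1 = (2 : ℕ) by norm_num, Real.rpow_natCast,
          show s + 3 - 1 = s + (2 : ℕ) by push_cast; ring, Real.rpow_add_natCast hq0.ne']
        ring

lemma cut_shift {s : ℝ} (hs : -1 < s) (c : ℝ) :
    IntegrableOn (fun w => cut s (w + c) + 1) (Ioo (-1 : ℝ) 1) ∧
      ∫ w in Ioo (-1 : ℝ) 1, (cut s (w + c) + 1) ≤ (∫ y, cut s y) + 2 := by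
  have i1 : Integrable (fun w => cut s (w + c)) := (integrable_cut hs).comp_add_right c
  have i4 : IntegrableOn (fun _ : ℝ => (1 : ℝ)) (Ioo (-1 : ℝ) 1) := by
    rw [integrableOn_const_iff]
    right
    rw [Real.volume_Ioo]
    exact ENNReal.ofReal_lt_top
  refine ⟨i1.integrableOn.add i4, ?_⟩
  rw [integral_add i1.integrableOn i4]
  have e1 : ∫ w in Ioo (-1 : ℝ) 1, cut s (w + c) ≤ ∫ w, cut s (w + c) :=
    setIntegral_le_integral i1 (Eventually.of_forall fun w => cut_nonneg s _)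
  have e2 : ∫ w, cut s (w + c) = ∫ y, cut s y := integral_add_right_eq_self (cut s) c
  have e3 : ∫ _ in Ioo (-1 : ℝ) 1, (1 : ℝ) = 2 := by
    rw [setIntegral_const, smul_eq_mul, mul_one, Real.volume_real_Ioo]
    norm_num
  rw [e3]
  linarith

lemma H_int_neg {s d D : ℝ} (hs1 : -1 < s) (hs : s < 0) (hD : 0 < D) :
    Integrable (H s d D) ((volume.restrict (Ioi (0 : ℝ))).prod (volume.restrict (Ioo (-1 : ℝ) 1))) := by
  have hm := (measurable_H s d D).aestronglyMeasurable
    (μ := (volume.restrict (Ioi (0 : ℝ))).prod (volume.restrict (Ioo (-1 : ℝ) 1)))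
  have key : ∀ q : ℝ, 0 < q → ∀ w : ℝ, ‖H s d D (q, w)‖ ≤
      q ^ 2 * Real.exp (-q) * (q * D) ^ s * (cut s (w + (q * d - d) / (q * D)) + 1) := by
    intro q hq w
    rw [Real.norm_eq_abs]
    refine (H_le s d D q w).trans ?_
    have e : |q * (d + D * w) - d| ^ s = (q * D) ^ s * |w + (q * d - d) / (q * D)| ^ s := by
      rw [show q * (d + D * w) - d = (q * D) * (w + (q * d - d) / (q * D)) by field_simp; ring, abs_mul,
        abs_of_pos (show 0 < q * D by positivity), Real.mul_rpow (by positivity) (abs_nonneg _)]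
    rw [e, ← mul_assoc]
    exact mul_le_mul_of_nonneg_left (abs_rpow_le_cut hs _) (by positivity)
  rw [integrable_prod_iff hm]
  have hfib : ∀ q : ℝ, 0 < q → Integrable (fun w => H s d D (q, w)) (volume.restrict (Ioo (-1 : ℝ) 1)) := by
    intro q hq
    refine Integrable.mono' ((cut_shift hs1 ((q * d - d) / (q * D))).1.const_mul (q ^ 2 * Real.exp (-q) * (q * D) ^ s)) ?_ ?_
    · exact ((measurable_H s d D).comp (measurable_const.prodMk measurable_id)).aestronglyMeasurable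
    · exact Eventually.of_forall fun w => key q hq w
  constructor
  · rw [ae_restrict_iff' measurableSet_Ioi]
    exact Eventually.of_forall fun q hq => hfib q hq
  · have i1 := (gam_int (show 0 < s + 3 by linarith)).const_mul (D ^ s * ((∫ y, cut s y) + 2))
    refine Integrable.mono' i1 ?_ ?_
    · exact hm.norm.integral_prod_right'
    · rw [ae_restrict_iff' measurableSet_Ioi]
      refine Eventually.of_forall fun q hq => ?_
      have hq0 : 0 < q := hq
      rw [Real.norm_of_nonneg (integral_nonneg fun w => norm_nonneg _)]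
      have h1 : ∫ w in Ioo (-1 : ℝ) 1, ‖H s d D (q, w)‖ ≤ ∫ w in Ioo (-1 : ℝ) 1,
          q ^ 2 * Real.exp (-q) * (q * D) ^ s * (cut s (w + (q * d - d) / (q * D)) + 1) := by
        apply integral_mono (hfib q hq0).norm
        · exact (cut_shift hs1 ((q * d - d) / (q * D))).1.const_mul _
        · intro w
          exact key q hq0 w
      refine h1.trans ?_
      rw [integral_const_mul]
      refine (mul_le_mul_of_nonneg_left (cut_shift hs1 ((q * d - d) / (q * D))).2 (by positivity)).trans (le_of_eq ?_)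
      rw [Real.mul_rpow hq0.le hD.le, show s + 3 - 1 = s + (2 : ℕ) by push_cast; ring, Real.rpow_add_natCast hq0.ne']
      ring

lemma H_int {s d D : ℝ} (hs : -1 < s) (hd : 0 < d) (hD : 0 < D) :
    Integrable (H s d D) ((volume.restrict (Ioi (0 : ℝ))).prod (volume.restrict (Ioo (-1 : ℝ) 1))) := by
  rcases lt_or_ge s 0 with h | h
  · exact H_int_neg hs h hD
  · exact H_int_nonneg h hd hD

/-! ### the change of variables -/

/-- `(q, w) ↦ (q (1 + w), q (1 - w))` -/
def TT (z : ℝ × ℝ) : ℝ × ℝ := (z.1 * (1 + z.2), z.1 * (1 - z.2))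

/-- its derivative -/
noncomputable def TD (z : ℝ × ℝ) : ℝ × ℝ →L[ℝ] ℝ × ℝ :=
  LinearMap.toContinuousLinearMap (Matrix.toLin (Module.Basis.finTwoProd ℝ) (Module.Basis.finTwoProd ℝ)
    !![1 + z.2, z.1; 1 - z.2, -z.1])

lemma TD_apply (z v : ℝ × ℝ) : TD z v = ((1 + z.2) * v.1 + z.1 * v.2, (1 - z.2) * v.1 + (-z.1) * v.2) := by
  unfold TD
  rw [Matrix.toLin_finTwoProd_toContinuousLinearMap]
  simp

lemma hasFDerivAt_TT (z : ℝ × ℝ) : HasFDerivAt TT (TD z) z := by
  have h1 : HasFDerivAt (fun z : ℝ × ℝ => z.1 * (1 + z.2))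
      (z.1 • (ContinuousLinearMap.snd ℝ ℝ ℝ) + (1 + z.2) • (ContinuousLinearMap.fst ℝ ℝ ℝ)) z :=
    hasFDerivAt_fst.mul (hasFDerivAt_snd.const_add 1)
  have h2 : HasFDerivAt (fun z : ℝ × ℝ => z.1 * (1 - z.2))
      (z.1 • (-(ContinuousLinearMap.snd ℝ ℝ ℝ)) + (1 - z.2) • (ContinuousLinearMap.fst ℝ ℝ ℝ)) z :=
    hasFDerivAt_fst.mul (hasFDerivAt_snd.const_sub 1)
  have h3 := h1.prodMk h2
  refine h3.congr_fderiv (ContinuousLinearMap.ext fun v => ?_)
  rw [TD_apply]
  refine Prod.ext ?_ ?_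
  · simp; ring
  · simp; ring

lemma det_TD (z : ℝ × ℝ) : (TD z).det = -(2 * z.1) := by
  unfold TD
  simp only [LinearMap.det_toContinuousLinearMap, LinearMap.det_toLin, Matrix.det_fin_two_of]
  ring

lemma TT_image : TT '' (Ioi (0 : ℝ) ×ˢ Ioo (-1 : ℝ) 1) = Ioi (0 : ℝ) ×ˢ Ioi (0 : ℝ) := by
  ext ⟨u, v⟩
  constructor
  · rintro ⟨⟨q, w⟩, ⟨hq, hw⟩, h⟩
    have hq0 : 0 < q := hq
    have hw1 : -1 < w := hw.1
    have hw2 : w < 1 := hw.2
    unfold TT at h
    simp only [Prod.mk.injEq] at h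
    rw [← h.1, ← h.2]
    refine ⟨?_, ?_⟩
    · show 0 < q * (1 + w)
      exact mul_pos hq0 (by linarith)
    · show 0 < q * (1 - w)
      exact mul_pos hq0 (by linarith)
  · rintro ⟨hu, hv⟩
    have hu0 : 0 < u := hu
    have hv0 : 0 < v := hv
    have huv : 0 < u + v := by linarith
    refine ⟨((u + v) / 2, (u - v) / (u + v)), ⟨?_, ?_, ?_⟩, ?_⟩
    · show 0 < (u + v) / 2
      linarith
    · show -1 < (u - v) / (u + v)
      rw [lt_div_iff₀ huv]
      linarith
    · show (u - v) / (u + v) < 1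
      rw [div_lt_iff₀ huv]
      linarith
    · unfold TT
      simp only [Prod.mk.injEq]
      constructor <;> field_simp <;> ring

lemma TT_inj : InjOn TT (Ioi (0 : ℝ) ×ˢ Ioo (-1 : ℝ) 1) := by
  rintro ⟨q, w⟩ ⟨hq, hw⟩ ⟨q', w'⟩ ⟨hq', hw'⟩ h
  have hq0 : 0 < q := hq
  unfold TT at h
  simp only [Prod.mk.injEq] at h
  have h1 : q = q' := by linarith [h.1, h.2]
  subst h1
  have h2 : q * w = q * w' := by linarith [h.1, h.2]
  have h3 := mul_left_cancel₀ hq0.ne' h2
  rw [h3]

/-! ### the gamma density -/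

lemma pdf_eq (u : ℝ) : (gammaPDF (3 / 2) (1 / 2) u).toReal =
    (Ioi (0 : ℝ)).indicator (fun u => (1 / Real.sqrt (2 * Real.pi)) * (Real.sqrt u * Real.exp (-(u / 2)))) u := by
  have hG : Real.Gamma (3 / 2) = Real.sqrt Real.pi / 2 := by
    rw [show (3 / 2 : ℝ) = 1 / 2 + 1 by norm_num, Real.Gamma_add_one (by norm_num), Real.Gamma_one_half_eq]
    ring
  have hpi := Real.pi_pos
  rcases lt_trichotomy u 0 with h | h | h
  · rw [gammaPDF_of_neg h, indicator_of_notMem (by rw [mem_Ioi]; linarith)]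
    rfl
  · subst h
    rw [gammaPDF_of_nonneg le_rfl, indicator_of_notMem (by rw [mem_Ioi]; linarith)]
    rw [Real.zero_rpow (by norm_num)]
    simp
  · rw [gammaPDF_of_nonneg h.le, indicator_of_mem (mem_Ioi.2 h)]
    rw [ENNReal.toReal_ofReal (by rw [hG]; positivity), hG]
    rw [show (3 / 2 : ℝ) - 1 = 1 / 2 by norm_num, ← Real.sqrt_eq_rpow]
    have e1 : ((1 : ℝ) / 2) ^ (3 / 2 : ℝ) = 1 / 2 * (1 / Real.sqrt 2) := by
      rw [show (3 / 2 : ℝ) = 1 + 1 / 2 by norm_num, Real.rpow_add (by norm_num), Real.rpow_one, ← Real.sqrt_eq_rpow]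
      rw [Real.sqrt_div zero_le_one, Real.sqrt_one]
    rw [e1, Real.sqrt_mul (by norm_num : (0 : ℝ) ≤ 2)]
    have h2 : 0 < Real.sqrt 2 := by positivity
    have h3 : 0 < Real.sqrt Real.pi := by positivity
    rw [show 1 / 2 * u = u / 2 by ring]
    field_simp

lemma Ga_prod (F : ℝ × ℝ → ℝ) :
    ∫ z, F z ∂((Ga (3 / 2)).prod (Ga (3 / 2))) =
      ∫ z in Ioi (0 : ℝ) ×ˢ Ioi (0 : ℝ), (1 / (2 * Real.pi)) * (Real.sqrt z.1 * Real.sqrt z.2 *
        Real.exp (-((z.1 + z.2) / 2))) * F z := by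
  have hpi := Real.pi_pos
  have hm : Measurable (gammaPDF (3 / 2) (1 / 2)) := (measurable_gammaPDFReal _ _).ennreal_ofReal
  have h1 : (Ga (3 / 2)).prod (Ga (3 / 2)) = ((volume : Measure ℝ).prod volume).withDensity
      (fun z => gammaPDF (3 / 2) (1 / 2) z.1 * gammaPDF (3 / 2) (1 / 2) z.2) := by
    unfold Ga gammaMeasure
    exact prod_withDensity hm hm
  have hm2 : Measurable (fun z : ℝ × ℝ => gammaPDF (3 / 2) (1 / 2) z.1 * gammaPDF (3 / 2) (1 / 2) z.2) :=
    (hm.comp measurable_fst).mul (hm.comp measurable_snd)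
  rw [h1, integral_withDensity_eq_integral_toReal_smul hm2]
  · rw [← Measure.volume_eq_prod, ← integral_indicator (measurableSet_Ioi.prod measurableSet_Ioi)]
    apply integral_congr_ae
    refine Eventually.of_forall fun z => ?_
    obtain ⟨u, v⟩ := z
    simp only
    rw [ENNReal.toReal_mul, pdf_eq, pdf_eq, smul_eq_mul]
    by_cases hu : u ∈ Ioi (0 : ℝ)
    · by_cases hv : v ∈ Ioi (0 : ℝ)
      · rw [indicator_of_mem hu, indicator_of_mem hv, indicator_of_mem (show (u, v) ∈ Ioi (0 : ℝ) ×ˢ Ioi (0 : ℝ) from ⟨hu, hv⟩)]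
        have e1 : Real.exp (-((u + v) / 2)) = Real.exp (-(u / 2)) * Real.exp (-(v / 2)) := by
          rw [← Real.exp_add]; congr 1; ring
        have e2 : 1 / (2 * Real.pi) = 1 / Real.sqrt (2 * Real.pi) * (1 / Real.sqrt (2 * Real.pi)) := by
          rw [div_mul_div_comm, one_mul, Real.mul_self_sqrt (by positivity)]
        simp only
        rw [e1, e2]
        ring
      · have hn : (u, v) ∉ Ioi (0 : ℝ) ×ˢ Ioi (0 : ℝ) := fun h => hv h.2
        rw [indicator_of_notMem hv, indicator_of_notMem hn]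
        ring
    · have hn : (u, v) ∉ Ioi (0 : ℝ) ×ˢ Ioi (0 : ℝ) := fun h => hu h.1
      rw [indicator_of_notMem hu, indicator_of_notMem hn]
      ring
  · refine Eventually.of_forall fun z => ?_
    unfold gammaPDF
    exact ENNReal.mul_lt_top ENNReal.ofReal_lt_top ENNReal.ofReal_lt_top

/-- **T1** -/
theorem tT1 : T1 := by
  intro s x y hs hy hyx
  have hpi := Real.pi_pos
  have hd : 0 < x - y := by linarith
  have hD : 0 < x + y := by linarith
  rw [Ga_prod, ← TT_image, integral_image_eq_integral_abs_det_fderiv_smul volume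
    (measurableSet_Ioi.prod measurableSet_Ioo) (fun z _ => (hasFDerivAt_TT z).hasFDerivWithinAt) TT_inj]
  have e1 : ∀ z ∈ Ioi (0 : ℝ) ×ˢ Ioo (-1 : ℝ) 1, |(TD z).det| • (1 / (2 * Real.pi) *
      (Real.sqrt (TT z).1 * Real.sqrt (TT z).2 * Real.exp (-(((TT z).1 + (TT z).2) / 2))) *
      phi s (x * ((TT z).1 - 1) - y * ((TT z).2 - 1))) = (1 / Real.pi) * H s (x - y) (x + y) z := by
    rintro ⟨q, w⟩ ⟨hq, hw⟩
    have hq0 : 0 < q := hq
    have hw1 : -1 < w := hw.1
    have hw2 : w < 1 := hw.2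
    rw [det_TD]
    unfold TT H
    simp only [smul_eq_mul]
    rw [abs_neg, abs_of_pos (by linarith)]
    have f1 : Real.sqrt (q * (1 + w)) * Real.sqrt (q * (1 - w)) = q * Real.sqrt (1 - w ^ 2) := by
      rw [← Real.sqrt_mul (by nlinarith), show q * (1 + w) * (q * (1 - w)) = q ^ 2 * (1 - w ^ 2) by ring,
        Real.sqrt_mul (by positivity), Real.sqrt_sq hq0.le]
    have f2 : -((q * (1 + w) + q * (1 - w)) / 2) = -q := by ring
    have f3 : x * (q * (1 + w) - 1) - y * (q * (1 - w) - 1) = q * (x - y + (x + y) * w) - (x - y) := by ring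
    rw [f1, f2, f3]
    field_simp
  rw [setIntegral_congr_fun (measurableSet_Ioi.prod measurableSet_Ioo) e1, integral_const_mul]
  congr 1
  have hI := H_int hs hd hD
  rw [Measure.prod_restrict] at hI
  rw [Measure.volume_eq_prod, setIntegral_prod _ hI]
  apply setIntegral_congr_fun measurableSet_Ioi
  intro q _
  unfold H W
  simp only
  rw [← integral_const_mul]

end Pool.Agent.Q224.CQ.K1
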