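import Pool.Agent.Q224.CQ.K1
import Pool.Agent.Q298.CQ.J1

/-!
# Project CQ (helper298): positivity for `s ≥ 1`, T2
-/

set_option autoImplicit false

open MeasureTheory ProbabilityTheory Set Filter Topology
open Pool.Agent.Q298.CQ

namespace Pool.Agent.Q224.CQ.K2

lemma phi_odd (s x : ℝ) : phi s (-x) = -phi s x := by
  unfold phi
  rw [abs_neg, Real.sign_neg]
  ring

lemma phi_mono {s : ℝ} (hs : 0 < s) : StrictMono (phi s) := by
  intro x y hxy
  rw [J1.phi_max hs, J1.phi_max hs]
  have h1 : (max x 0) ^ s ≤ (max y 0) ^ s :=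
    Real.rpow_le_rpow (le_max_right _ _) (max_le_max_right 0 hxy.le) hs.le
  have h2 : (max (-y) 0) ^ s ≤ (max (-x) 0) ^ s :=
    Real.rpow_le_rpow (le_max_right _ _) (max_le_max_right 0 (by linarith)) hs.le
  rcases lt_or_ge 0 y with h | h
  · have h3 : (max x 0) ^ s < (max y 0) ^ s := by
      apply Real.rpow_lt_rpow (le_max_right _ _) _ hs
      rw [max_eq_left h.le]
      exact max_lt hxy h
    linarith
  · have h3 : (max (-y) 0) ^ s < (max (-x) 0) ^ s := by
      apply Real.rpow_lt_rpow (le_max_right _ _) _ hs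
      rw [max_eq_left (show (0 : ℝ) ≤ -x by linarith)]
      exact max_lt (by linarith) (by linarith)
    linarith

lemma phi_cont {s : ℝ} (hs : 0 < s) : Continuous (phi s) := (J1.pg_phi hs).1

lemma phi_deriv {s : ℝ} (hs : 1 ≤ s) (x : ℝ) : HasDerivAt (phi s) (s * |x| ^ (s - 1)) x := by
  rcases eq_or_lt_of_le hs with h | h
  · subst h
    have e : phi 1 = fun x => x := by
      funext y
      have := phi_eq 0 y
      rw [zero_add] at this
      rw [this, Real.rpow_zero, mul_one]
    rw [e]
    refine (hasDerivAt_id x).congr_deriv ?_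
    rw [sub_self, Real.rpow_zero]
    norm_num
  · have := hasDerivAt_phi (t := s - 1) (by linarith) x
    rw [sub_add_cancel] at this
    exact this

/-- the increment is monotone in `|N|` -/
lemma xi_mono {s : ℝ} (hs : 1 ≤ s) {m N N' : ℝ} (hm : 0 ≤ m) (hN : |N| ≤ N') :
    phi s (N + m) - phi s (N - m) ≤ phi s (N' + m) - phi s (N' - m) := by
  have key : MonotoneOn (fun N => phi s (N + m) - phi s (N - m)) (Ici 0) := by
    have hd : ∀ N, HasDerivAt (fun N => phi s (N + m) - phi s (N - m)) (s * |N + m| ^ (s - 1) - s * |N - m| ^ (s - 1)) N := by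
      intro N
      have h1 : HasDerivAt (fun N => phi s (N + m)) (s * |N + m| ^ (s - 1)) N := (phi_deriv hs (N + m)).comp_add_const N m
      have h2 : HasDerivAt (fun N => phi s (N - m)) (s * |N - m| ^ (s - 1)) N := (phi_deriv hs (N - m)).comp_sub_const N m
      exact h1.sub h2
    apply monotoneOn_of_deriv_nonneg (convex_Ici 0)
    · intro N _
      exact (hd N).continuousAt.continuousWithinAt
    · intro N _
      exact (hd N).differentiableAt.differentiableWithinAt
    · intro N hN
      rw [interior_Ici] at hN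
      have hN0 : 0 < N := hN
      rw [(hd N).deriv, sub_nonneg]
      apply mul_le_mul_of_nonneg_left _ (by linarith)
      apply Real.rpow_le_rpow (abs_nonneg _) _ (by linarith)
      rw [abs_of_nonneg (show 0 ≤ N + m by linarith), abs_le]
      constructor <;> linarith
  have h1 : phi s (N + m) - phi s (N - m) = phi s (|N| + m) - phi s (|N| - m) := by
    rcases le_or_gt 0 N with h | h
    · rw [abs_of_nonneg h]
    · rw [abs_of_neg h, show -N + m = -(N - m) by ring, show -N - m = -(N + m) by ring, phi_odd, phi_odd]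
      ring
  rw [h1]
  exact key (abs_nonneg N) (show N' ∈ Ici (0 : ℝ) from (abs_nonneg N).trans hN) hN

/-- the symmetrised integrand -/
noncomputable def bb (s d D q w : ℝ) : ℝ := phi s (q * d - d + q * D * w) + phi s (q * d - d - q * D * w)

lemma bb_nonneg {s : ℝ} (hs : 0 < s) {d : ℝ} (hd : 0 < d) (D : ℝ) {u : ℝ} (hu : 0 ≤ u) (w : ℝ) : 0 ≤ bb s d D (1 + u) w := by
  unfold bb
  have h1 : phi s (-((1 + u) * d - d - (1 + u) * D * w)) ≤ phi s ((1 + u) * d - d + (1 + u) * D * w) := by
    apply (phi_mono hs).monotone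
    have : 0 ≤ u * d := by positivity
    linarith
  rw [phi_odd] at h1
  linarith

lemma bb_pos {s : ℝ} (hs : 0 < s) {d : ℝ} (hd : 0 < d) (D : ℝ) {u : ℝ} (hu : 0 < u) (w : ℝ) : 0 < bb s d D (1 + u) w := by
  unfold bb
  have h1 : phi s (-((1 + u) * d - d - (1 + u) * D * w)) < phi s ((1 + u) * d - d + (1 + u) * D * w) := by
    apply phi_mono hs
    have : 0 < u * d := by positivity
    linarith
  rw [phi_odd] at h1
  linarith

lemma bb_even (s d D q w : ℝ) : bb s d D q (-w) = bb s d D q w := by
  unfold bb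
  rw [show q * d - d + q * D * -w = q * d - d - q * D * w by ring, show q * d - d - q * D * -w = q * d - d + q * D * w by ring,
    add_comm]

lemma bb_pair {s : ℝ} (hs : 1 ≤ s) {d D : ℝ} (hd : 0 < d) (hD : 0 < D) {u : ℝ} (hu : 0 ≤ u) (w : ℝ) :
    0 ≤ bb s d D (1 + u) w + bb s d D (1 - u) w := by
  have key : ∀ w : ℝ, 0 ≤ w → 0 ≤ bb s d D (1 + u) w + bb s d D (1 - u) w := by
    intro w hw
    have h1 : 0 ≤ u * d := by positivity
    have h2 : 0 ≤ D * w := by positivity
    have h3 := xi_mono hs (m := u * D * w) (N := u * d - D * w) (N' := u * d + D * w) (by positivity)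
      (by rw [abs_le]; constructor <;> linarith)
    unfold bb
    rw [show (1 + u) * d - d + (1 + u) * D * w = u * d + D * w + u * D * w by ring,
      show (1 + u) * d - d - (1 + u) * D * w = u * d - D * w - u * D * w by ring,
      show (1 - u) * d - d + (1 - u) * D * w = -(u * d - D * w + u * D * w) by ring,
      show (1 - u) * d - d - (1 - u) * D * w = -(u * d + D * w - u * D * w) by ring, phi_odd, phi_odd]
    linarith
  rcases le_or_gt 0 w with h | h
  · exact key w h
  · have := key (-w) (by linarith)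
    rwa [bb_even, bb_even] at this

/-! ### the function `W` -/

lemma cont_int {s : ℝ} (hs : 0 < s) (a b : ℝ) : Continuous fun w : ℝ => Real.sqrt (1 - w ^ 2) * phi s (a + b * w) := by
  have h1 : Continuous fun w : ℝ => phi s (a + b * w) := (phi_cont hs).comp (by fun_prop)
  have h2 : Continuous fun w : ℝ => Real.sqrt (1 - w ^ 2) := by fun_prop
  exact h2.mul h1

lemma W_two {s : ℝ} (hs : 0 < s) (d D q : ℝ) :
    2 * W s d D q = ∫ w in (-1 : ℝ)..1, Real.sqrt (1 - w ^ 2) * bb s d D q w := by
  have e1 : W s d D q = ∫ w in (-1 : ℝ)..1, Real.sqrt (1 - w ^ 2) * phi s ((q * d - d) + (q * D) * w) := by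
    unfold W
    rw [intervalIntegral.integral_of_le (by norm_num), integral_Ioc_eq_integral_Ioo]
    apply setIntegral_congr_fun measurableSet_Ioo
    intro w _
    simp only
    rw [show q * (d + D * w) - d = (q * d - d) + (q * D) * w by ring]
  have e2 : W s d D q = ∫ w in (-1 : ℝ)..1, Real.sqrt (1 - w ^ 2) * phi s ((q * d - d) + (-(q * D)) * w) := by
    have h1 := intervalIntegral.integral_comp_neg (a := -1) (b := 1)
      (fun w : ℝ => Real.sqrt (1 - w ^ 2) * phi s ((q * d - d) + (q * D) * w))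
    rw [neg_neg, ← e1] at h1
    rw [← h1]
    apply intervalIntegral.integral_congr
    intro w _
    simp only
    rw [show (1 - (-w) ^ 2) = 1 - w ^ 2 by ring, show (q * d - d) + (q * D) * -w = (q * d - d) + (-(q * D)) * w by ring]
  rw [two_mul]
  nth_rewrite 1 [e1]
  rw [e2, ← intervalIntegral.integral_add ((cont_int hs _ _).intervalIntegrable _ _) ((cont_int hs _ _).intervalIntegrable _ _)]
  apply intervalIntegral.integral_congr
  intro w _
  unfold bb
  simp only
  rw [show (q * d - d) + (-(q * D)) * w = q * d - d - q * D * w by ring]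
  ring

lemma cont_bb {s : ℝ} (hs : 0 < s) (d D q : ℝ) : Continuous fun w : ℝ => Real.sqrt (1 - w ^ 2) * bb s d D q w := by
  have h1 := (cont_int hs (q * d - d) (q * D)).add (cont_int hs (q * d - d) (-(q * D)))
  have e : (fun w : ℝ => Real.sqrt (1 - w ^ 2) * bb s d D q w) = fun w : ℝ =>
      Real.sqrt (1 - w ^ 2) * phi s ((q * d - d) + (q * D) * w) + Real.sqrt (1 - w ^ 2) * phi s ((q * d - d) + (-(q * D)) * w) := by
    funext w
    unfold bb
    rw [show (q * d - d) + (-(q * D)) * w = q * d - d - q * D * w by ring]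
    ring
  rw [e]
  exact h1

lemma W_nonneg {s : ℝ} (hs : 0 < s) {d : ℝ} (hd : 0 < d) (D : ℝ) {u : ℝ} (hu : 0 ≤ u) : 0 ≤ W s d D (1 + u) := by
  have h1 := W_two hs d D (1 + u)
  have h2 : 0 ≤ ∫ w in (-1 : ℝ)..1, Real.sqrt (1 - w ^ 2) * bb s d D (1 + u) w :=
    intervalIntegral.integral_nonneg (by norm_num) fun w _ => mul_nonneg (Real.sqrt_nonneg _) (bb_nonneg hs hd D hu w)
  linarith

lemma W_pos {s : ℝ} (hs : 0 < s) {d : ℝ} (hd : 0 < d) (D : ℝ) {u : ℝ} (hu : 0 < u) : 0 < W s d D (1 + u) := by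
  have h1 := W_two hs d D (1 + u)
  have h2 : 0 < ∫ w in (-1 : ℝ)..1, Real.sqrt (1 - w ^ 2) * bb s d D (1 + u) w := by
    apply intervalIntegral.intervalIntegral_pos_of_pos_on ((cont_bb hs d D _).intervalIntegrable _ _) _ (by norm_num)
    intro w hw
    apply mul_pos _ (bb_pos hs hd D hu w)
    rw [Real.sqrt_pos]
    nlinarith [hw.1, hw.2]
  linarith

lemma W_pair {s : ℝ} (hs : 1 ≤ s) {d D : ℝ} (hd : 0 < d) (hD : 0 < D) {u : ℝ} (hu : 0 ≤ u) :
    0 ≤ W s d D (1 + u) + W s d D (1 - u) := by
  have hs0 : 0 < s := by linarith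
  have h1 := W_two hs0 d D (1 + u)
  have h2 := W_two hs0 d D (1 - u)
  have h3 : 0 ≤ ∫ w in (-1 : ℝ)..1, (Real.sqrt (1 - w ^ 2) * bb s d D (1 + u) w + Real.sqrt (1 - w ^ 2) * bb s d D (1 - u) w) := by
    apply intervalIntegral.integral_nonneg (by norm_num)
    intro w _
    rw [← mul_add]
    exact mul_nonneg (Real.sqrt_nonneg _) (bb_pair hs hd hD hu w)
  rw [intervalIntegral.integral_add ((cont_bb hs0 d D _).intervalIntegrable _ _) ((cont_bb hs0 d D _).intervalIntegrable _ _)] at h3
  linarith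

/-! ### the weight -/

lemma wt {u : ℝ} (hu : 0 ≤ u) (hu1 : u ≤ 1) :
    (1 - u) ^ 2 * Real.exp (-(1 - u)) ≤ (1 + u) ^ 2 * Real.exp (-(1 + u)) := by
  have h1 : (1 - u) * Real.exp u ≤ 1 := by
    have h2 := Real.add_one_le_exp (-u)
    have h3 : Real.exp (-u) * Real.exp u = 1 := by rw [← Real.exp_add]; simp
    have h4 := Real.exp_pos u
    nlinarith
  have h5 : 0 ≤ (1 - u) * Real.exp u := by
    have := Real.exp_pos u
    nlinarith
  have h6 : ((1 - u) * Real.exp u) ^ 2 ≤ (1 + u) ^ 2 := by
    apply pow_le_pow_left₀ h5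
    linarith
  have e1 : (1 - u) ^ 2 * Real.exp (-(1 - u)) = ((1 - u) * Real.exp u) ^ 2 * Real.exp (-(1 + u)) := by
    rw [mul_pow, ← Real.exp_nat_mul, mul_assoc, ← Real.exp_add]
    congr 2
    push_cast
    ring
  rw [e1]
  exact mul_le_mul_of_nonneg_right h6 (Real.exp_pos _).le

/-- **T2** -/
theorem tT2 : T2 := by
  intro s d D hs hd hdD
  have hs0 : 0 < s := by linarith
  have hD : 0 < D := by linarith
  set K : ℝ → ℝ := fun q => q ^ 2 * Real.exp (-q) * W s d D q with hK
  have hI : IntegrableOn K (Ioi 0) := by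
    have h1 := (K1.H_int (show -1 < s by linarith) hd hD).integral_prod_left
    refine h1.congr (Eventually.of_forall fun q => ?_)
    unfold K1.H
    simp only [hK]
    unfold W
    rw [integral_const_mul]
  have hI2 : IntegrableOn K (Ioc 0 2) := hI.mono_set fun x hx => hx.1
  have hI3 : IntegrableOn K (Ioi 2) := hI.mono_set (Ioi_subset_Ioi (by norm_num))
  have hsplit : ∫ q in Ioi (0 : ℝ), K q = (∫ q in Ioc (0 : ℝ) 2, K q) + ∫ q in Ioi (2 : ℝ), K q := by
    rw [← Ioc_union_Ioi_eq_Ioi (show (0 : ℝ) ≤ 2 by norm_num)]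
    rw [setIntegral_union (Set.Ioc_disjoint_Ioi le_rfl) measurableSet_Ioi hI2 hI3]
  show 0 < ∫ q in Ioi (0 : ℝ), K q
  rw [hsplit]
  have hab : ∀ a b : ℝ, 0 ≤ a → a ≤ b → IntervalIntegrable K volume a b := by
    intro a b ha hab
    rw [intervalIntegrable_iff_integrableOn_Ioc_of_le hab]
    exact hI.mono_set fun x hx => lt_of_le_of_lt ha hx.1
  -- the first part
  have p1 : 0 ≤ ∫ q in Ioc (0 : ℝ) 2, K q := by
    rw [← intervalIntegral.integral_of_le (by norm_num)]
    rw [← intervalIntegral.integral_add_adjacent_intervals (hab 0 1 le_rfl (by norm_num)) (hab 1 2 (by norm_num) (by norm_num))]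
    have e1 : ∫ u in (0 : ℝ)..1, K (1 - u) = ∫ q in (0 : ℝ)..1, K q := by
      rw [intervalIntegral.integral_comp_sub_left]
      norm_num
    have e2 : ∫ u in (0 : ℝ)..1, K (1 + u) = ∫ q in (1 : ℝ)..2, K q := by
      rw [intervalIntegral.integral_comp_add_left]
      norm_num
    have i1 : IntervalIntegrable (fun u => K (1 - u)) volume 0 1 := by
      have := (hab 0 1 le_rfl (by norm_num)).comp_sub_left 1
      simpa using this.symm
    have i2 : IntervalIntegrable (fun u => K (1 + u)) volume 0 1 := by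
      have := (hab 1 2 (by norm_num) (by norm_num)).comp_add_left 1
      norm_num at this
      exact this
    rw [← e1, ← e2, ← intervalIntegral.integral_add i1 i2]
    apply intervalIntegral.integral_nonneg (by norm_num)
    intro u hu
    have h1 := W_nonneg hs0 hd D hu.1
    have h2 := W_pair hs hd hD hu.1
    have h3 := wt hu.1 hu.2
    have h4 : 0 ≤ (1 - u) ^ 2 * Real.exp (-(1 - u)) := by positivity
    simp only [hK]
    have h5 : (1 - u) ^ 2 * Real.exp (-(1 - u)) * W s d D (1 + u) ≤ (1 + u) ^ 2 * Real.exp (-(1 + u)) * W s d D (1 + u) :=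
      mul_le_mul_of_nonneg_right h3 h1
    nlinarith [mul_nonneg h4 h2]
  have p2 : 0 < ∫ q in Ioi (2 : ℝ), K q := by
    have hpos : ∀ q : ℝ, 2 < q → 0 < K q := by
      intro q hq
      have h1 := W_pos hs0 hd D (show 0 < q - 1 by linarith)
      rw [show 1 + (q - 1) = q by ring] at h1
      simp only [hK]
      have : 0 < q := by linarith
      positivity
    have h1 : 0 < ∫ q in (2 : ℝ)..3, K q := by
      apply intervalIntegral.intervalIntegral_pos_of_pos_on (hab 2 3 (by norm_num) (by norm_num)) _ (by norm_num)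
      intro q hq
      exact hpos q hq.1
    rw [intervalIntegral.integral_of_le (by norm_num)] at h1
    refine h1.trans_le ?_
    apply setIntegral_mono_set hI3
    · rw [EventuallyLE, ae_restrict_iff' measurableSet_Ioi]
      exact Eventually.of_forall fun q hq => (hpos q hq).le
    · exact Eventually.of_forall fun q hq => hq.1
  linarith

end Pool.Agent.Q224.CQ.K2
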