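import Pool.Agent.Q298.CQ.Stm

/-!
# Project CQ (helper298): positivity of the integral for `-1 < s ≤ 1`, T4
-/

set_option autoImplicit false

open MeasureTheory ProbabilityTheory Set Filter Topology
open Pool.Agent.Q298.CQ

namespace Pool.Agent.Q224.CQ

/-! ### the logarithm -/

lemma log_diff_ge {w : ℝ} (h0 : 0 < w) (h1 : w < 1) : 2 * w ≤ Real.log (1 + w) - Real.log (1 - w) := by
  have h := Real.hasSum_log_sub_log_of_abs_lt_one (x := w) (by rw [abs_of_pos h0]; exact h1)
  have h2 := sum_le_hasSum (Finset.range 1) (fun i _ => by positivity) h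
  simpa using h2

/-- the function which decides the sign -/
noncomputable def ell (w : ℝ) : ℝ := (1 - w ^ 2) * (Real.log (1 + w) - Real.log (1 - w)) / w

lemma ell_anti : AntitoneOn ell (Ioo 0 1) := by
  have hd : ∀ w ∈ Ioo (0 : ℝ) 1, HasDerivAt ell
      ((((-(2 * w)) * (Real.log (1 + w) - Real.log (1 - w)) + (1 - w ^ 2) * (1 / (1 + w) - (-1) / (1 - w))) * w -
        (1 - w ^ 2) * (Real.log (1 + w) - Real.log (1 - w)) * 1) / w ^ 2) w := by
    intro w hw
    have e1 : HasDerivAt (fun w : ℝ => 1 - w ^ 2) (-(2 * w)) w := by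
      have := ((hasDerivAt_pow 2 w).const_sub 1)
      simpa using this
    have e2 : HasDerivAt (fun w : ℝ => Real.log (1 + w)) (1 / (1 + w)) w :=
      ((hasDerivAt_id w).const_add 1).log (by simp only [id]; linarith [hw.1])
    have e3 : HasDerivAt (fun w : ℝ => Real.log (1 - w)) ((-1) / (1 - w)) w :=
      ((hasDerivAt_id w).const_sub 1).log (by simp only [id]; linarith [hw.2])
    exact (e1.mul (e2.sub e3)).div (hasDerivAt_id w) hw.1.ne'
  apply antitoneOn_of_deriv_nonpos (convex_Ioo 0 1)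
  · intro w hw
    exact (hd w hw).continuousAt.continuousWithinAt
  · intro w hw
    rw [interior_Ioo] at hw
    exact (hd w hw).differentiableAt.differentiableWithinAt
  · intro w hw
    rw [interior_Ioo] at hw
    rw [(hd w hw).deriv]
    have h1 := log_diff_ge hw.1 hw.2
    have hw1 : (1 - w) ≠ 0 := by linarith [hw.2]
    have hw2 : (1 + w) ≠ 0 := by linarith [hw.1]
    have e : (1 - w ^ 2) * (1 / (1 + w) - (-1) / (1 - w)) = 2 := by
      field_simp
      ring
    rw [e]
    apply div_nonpos_of_nonpos_of_nonneg _ (sq_nonneg _)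
    have h0 := hw.1
    nlinarith [mul_le_mul_of_nonneg_left h1 (show 0 ≤ 1 + w ^ 2 by positivity)]

/-! ### the weight -/

/-- the weight for `w > 0`, contribution of `q > 1` -/
noncomputable def rp (t w : ℝ) : ℝ := if w < 1 then (1 / (1 - w)) ^ t * Real.exp (-(1 / (1 - w))) else 0

/-- the weight for `w > 0`, contribution of `q < 1` -/
noncomputable def rm (t w : ℝ) : ℝ := (1 / (1 + w)) ^ t * Real.exp (-(1 / (1 + w)))

lemma rm_pos (t : ℝ) {w : ℝ} (hw : 0 < w) : 0 < rm t w := by
  unfold rm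
  have : 0 < 1 + w := by linarith
  positivity

lemma sign_iff (t : ℝ) {w : ℝ} (h0 : 0 < w) (h1 : w < 1) : rm t w < rp t w ↔ 2 < t * ell w := by
  have a1 : 0 < 1 + w := by linarith
  have a2 : 0 < 1 - w := by linarith
  unfold rm rp
  rw [if_pos h1]
  have e1 : (1 / (1 + w)) ^ t * Real.exp (-(1 / (1 + w))) = Real.exp (-(t * Real.log (1 + w)) - 1 / (1 + w)) := by
    rw [Real.rpow_def_of_pos (by positivity), ← Real.exp_add, Real.log_div one_ne_zero a1.ne', Real.log_one]
    congr 1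
    ring
  have e2 : (1 / (1 - w)) ^ t * Real.exp (-(1 / (1 - w))) = Real.exp (-(t * Real.log (1 - w)) - 1 / (1 - w)) := by
    rw [Real.rpow_def_of_pos (by positivity), ← Real.exp_add, Real.log_div one_ne_zero a2.ne', Real.log_one]
    congr 1
    ring
  rw [e1, e2, Real.exp_lt_exp]
  have e3 : 1 / (1 - w) - 1 / (1 + w) = 2 * w / (1 - w ^ 2) := by
    have : (1 - w ^ 2) ≠ 0 := by nlinarith
    field_simp
    ring
  have a3 : 0 < 1 - w ^ 2 := by nlinarith
  have e4 : 2 < t * ell w ↔ 2 * w / (1 - w ^ 2) < t * (Real.log (1 + w) - Real.log (1 - w)) := by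
    unfold ell
    rw [div_lt_iff₀ a3, mul_div_assoc', lt_div_iff₀ h0]
    constructor <;> intro h <;> linarith
  rw [e4, ← e3]
  constructor <;> intro h <;> linarith

lemma pos_down (t : ℝ) (ht : 0 < t) {w p : ℝ} (hw : 0 < w) (hwp : w ≤ p) (h : 0 < rp t p - rm t p) :
    0 < rp t w - rm t w := by
  have hp : p < 1 := by
    by_contra hp
    have h1 : rp t p = 0 := by unfold rp; rw [if_neg hp]
    have h2 := rm_pos t (hw.trans_le hwp)
    linarith
  have h1 := (sign_iff t (hw.trans_le hwp) hp).1 (by linarith)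
  have h2 := ell_anti (show w ∈ Ioo (0 : ℝ) 1 from ⟨hw, by linarith⟩) (show p ∈ Ioo (0 : ℝ) 1 from ⟨by linarith, hp⟩) hwp
  have h3 := (sign_iff t hw (by linarith)).2 (by nlinarith)
  linarith

/-! ### the substitution -/

/-- the integrand -/
noncomputable def FF (t : ℝ) (ψ : ℝ → ℝ) (q : ℝ) : ℝ := q ^ (t - 2) * Real.exp (-q) * ψ (1 - 1 / q)

lemma subst_hi (t : ℝ) (ψ : ℝ → ℝ) :
    (∫ q in Ioi (1 : ℝ), FF t ψ q = ∫ w in Ioi (0 : ℝ), rp t w * ψ w) ∧
    (IntegrableOn (FF t ψ) (Ioi 1) → IntegrableOn (fun w => rp t w * ψ w) (Ioi 0)) := by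
  have himg : (fun w : ℝ => 1 / (1 - w)) '' Ioo 0 1 = Ioi 1 := by
    ext q
    constructor
    · rintro ⟨w, hw, rfl⟩
      have : 0 < 1 - w := by linarith [hw.2]
      show 1 < 1 / (1 - w)
      rw [lt_div_iff₀ this]
      linarith [hw.1]
    · intro hq
      have hq1 : 1 < q := hq
      have hq0 : 0 < q := by linarith
      refine ⟨1 - 1 / q, ⟨?_, ?_⟩, ?_⟩
      · have : 1 / q < 1 := by rw [div_lt_one hq0]; exact hq1
        linarith
      · have : 0 < 1 / q := by positivity
        linarith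
      · show 1 / (1 - (1 - 1 / q)) = q
        field_simp
        ring
  have hder : ∀ w ∈ Ioo (0 : ℝ) 1, HasDerivWithinAt (fun w : ℝ => 1 / (1 - w)) (1 / (1 - w) ^ 2) (Ioo 0 1) w := by
    intro w hw
    have h1 : (1 - w) ≠ 0 := by linarith [hw.2]
    have h2 := ((hasDerivAt_id w).const_sub 1).inv (by simpa using h1)
    have h3 : HasDerivAt (fun w : ℝ => 1 / (1 - w)) (1 / (1 - w) ^ 2) w := by
      refine h2.congr_deriv (by simp) |>.congr_of_eventuallyEq ?_
      exact Eventually.of_forall fun x => by simp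
    exact h3.hasDerivWithinAt
  have hinj : InjOn (fun w : ℝ => 1 / (1 - w)) (Ioo 0 1) := by
    intro x hx y hy h
    have h1 : (1 - x) ≠ 0 := by linarith [hx.2]
    have h2 : (1 - y) ≠ 0 := by linarith [hy.2]
    simp only at h
    rw [div_eq_div_iff h1 h2] at h
    linarith
  have hcong : ∀ w ∈ Ioo (0 : ℝ) 1, |1 / (1 - w) ^ 2| • FF t ψ (1 / (1 - w)) = rp t w * ψ w := by
    intro w hw
    have h1 : 0 < 1 - w := by linarith [hw.2]
    unfold FF rp
    rw [if_pos hw.2, abs_of_pos (by positivity), smul_eq_mul]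
    rw [show 1 - 1 / (1 / (1 - w)) = w by field_simp; ring]
    have h2 : (1 / (1 - w)) ^ t = 1 / (1 - w) ^ 2 * (1 / (1 - w)) ^ (t - 2) := by
      rw [Real.rpow_sub (by positivity)]
      rw [show (1 / (1 - w)) ^ (2 : ℝ) = 1 / (1 - w) ^ 2 by
        rw [show (2 : ℝ) = ((2 : ℕ) : ℝ) by norm_num, Real.rpow_natCast]; rw [div_pow, one_pow]]
      field_simp
    rw [h2]
    ring
  have hzero : ∀ w ∈ Ioi (0 : ℝ) \ Ioo 0 1, rp t w * ψ w = 0 := by
    intro w hw
    unfold rp
    rw [if_neg, zero_mul]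
    intro h
    exact hw.2 ⟨hw.1, h⟩
  have hsub : Ioo (0 : ℝ) 1 ⊆ Ioi 0 := fun x hx => hx.1
  constructor
  · rw [← himg, integral_image_eq_integral_abs_deriv_smul measurableSet_Ioo hder hinj]
    rw [setIntegral_congr_fun measurableSet_Ioo hcong]
    exact (setIntegral_eq_of_subset_of_forall_sdiff_eq_zero measurableSet_Ioi hsub hzero).symm
  · intro h
    rw [← himg, integrableOn_image_iff_integrableOn_abs_deriv_smul measurableSet_Ioo hder hinj] at h
    have h2 := h.congr_fun hcong measurableSet_Ioo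
    exact h2.of_forall_sdiff_eq_zero measurableSet_Ioi hzero

lemma subst_lo (t : ℝ) (ψ : ℝ → ℝ) (hodd : ∀ w, ψ (-w) = -ψ w) :
    (∫ q in Ioo (0 : ℝ) 1, FF t ψ q = -∫ w in Ioi (0 : ℝ), rm t w * ψ w) ∧
    (IntegrableOn (FF t ψ) (Ioo 0 1) → IntegrableOn (fun w => rm t w * ψ w) (Ioi 0)) := by
  have himg : (fun w : ℝ => 1 / (1 + w)) '' Ioi 0 = Ioo 0 1 := by
    ext q
    constructor
    · rintro ⟨w, hw, rfl⟩
      have hw0 : 0 < w := hw
      have : 0 < 1 + w := by linarith
      refine ⟨by positivity, ?_⟩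
      show 1 / (1 + w) < 1
      rw [div_lt_one this]
      linarith
    · intro hq
      have hq0 : 0 < q := hq.1
      refine ⟨1 / q - 1, ?_, ?_⟩
      · show 0 < 1 / q - 1
        have : 1 < 1 / q := by rw [lt_div_iff₀ hq0]; linarith [hq.2]
        linarith
      · show 1 / (1 + (1 / q - 1)) = q
        field_simp
        ring
  have hder : ∀ w ∈ Ioi (0 : ℝ), HasDerivWithinAt (fun w : ℝ => 1 / (1 + w)) (-(1 / (1 + w) ^ 2)) (Ioi 0) w := by
    intro w hw
    have hw0 : 0 < w := hw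
    have h1 : (1 + w) ≠ 0 := by linarith
    have h2 := ((hasDerivAt_id w).const_add 1).inv (by simpa using h1)
    have h3 : HasDerivAt (fun w : ℝ => 1 / (1 + w)) (-(1 / (1 + w) ^ 2)) w := by
      refine h2.congr_deriv (by simp [neg_div]) |>.congr_of_eventuallyEq ?_
      exact Eventually.of_forall fun x => by simp
    exact h3.hasDerivWithinAt
  have hinj : InjOn (fun w : ℝ => 1 / (1 + w)) (Ioi 0) := by
    intro x hx y hy h
    have hx0 : 0 < x := hx
    have hy0 : 0 < y := hy
    have h1 : (1 + x) ≠ 0 := by linarith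
    have h2 : (1 + y) ≠ 0 := by linarith
    simp only at h
    rw [div_eq_div_iff h1 h2] at h
    linarith
  have hcong : ∀ w ∈ Ioi (0 : ℝ), |-(1 / (1 + w) ^ 2)| • FF t ψ (1 / (1 + w)) = -(rm t w * ψ w) := by
    intro w hw
    have hw0 : 0 < w := hw
    have h1 : 0 < 1 + w := by linarith
    unfold FF rm
    rw [abs_neg, abs_of_pos (by positivity), smul_eq_mul]
    rw [show 1 - 1 / (1 / (1 + w)) = -w by field_simp; ring, hodd]
    have h2 : (1 / (1 + w)) ^ t = 1 / (1 + w) ^ 2 * (1 / (1 + w)) ^ (t - 2) := by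
      rw [Real.rpow_sub (by positivity)]
      rw [show (1 / (1 + w)) ^ (2 : ℝ) = 1 / (1 + w) ^ 2 by
        rw [show (2 : ℝ) = ((2 : ℕ) : ℝ) by norm_num, Real.rpow_natCast]; rw [div_pow, one_pow]]
      field_simp
    rw [h2]
    ring
  constructor
  · rw [← himg, integral_image_eq_integral_abs_deriv_smul measurableSet_Ioi hder hinj]
    rw [setIntegral_congr_fun measurableSet_Ioi hcong, integral_neg]
  · intro h
    rw [← himg, integrableOn_image_iff_integrableOn_abs_deriv_smul measurableSet_Ioi hder hinj] at h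
    have h2 := h.congr_fun hcong measurableSet_Ioi
    have h3 := h2.neg
    refine h3.congr_fun (fun w _ => ?_) measurableSet_Ioi
    simp

lemma subst_all (t : ℝ) (ψ : ℝ → ℝ) (hodd : ∀ w, ψ (-w) = -ψ w) (hI : IntegrableOn (FF t ψ) (Ioi 0)) :
    (∫ q in Ioi (0 : ℝ), FF t ψ q = ∫ w in Ioi (0 : ℝ), (rp t w - rm t w) * ψ w) ∧
    IntegrableOn (fun w => (rp t w - rm t w) * ψ w) (Ioi 0) := by
  obtain ⟨a1, a2⟩ := subst_hi t ψ
  obtain ⟨b1, b2⟩ := subst_lo t ψ hodd
  have hI1 : IntegrableOn (FF t ψ) (Ioi 1) := hI.mono_set (Ioi_subset_Ioi zero_le_one)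
  have hI2 : IntegrableOn (FF t ψ) (Ioc 0 1) := hI.mono_set (fun x hx => hx.1)
  have hI3 : IntegrableOn (FF t ψ) (Ioo 0 1) := hI.mono_set (fun x hx => hx.1)
  have c1 := a2 hI1
  have c2 := b2 hI3
  have e : (fun w => (rp t w - rm t w) * ψ w) = fun w => rp t w * ψ w - rm t w * ψ w := by
    funext w; ring
  rw [e]
  refine ⟨?_, c1.sub c2⟩
  rw [integral_sub c1 c2, ← Ioc_union_Ioi_eq_Ioi (zero_le_one' ℝ),
    setIntegral_union (Set.Ioc_disjoint_Ioi le_rfl) measurableSet_Ioi hI2 hI1, integral_Ioc_eq_integral_Ioo, b1, a1]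
  rw [Ioc_union_Ioi_eq_Ioi (zero_le_one' ℝ)]
  ring

/-! ### the main inequality -/

lemma main_pos (t : ℝ) (ht : 0 < t) (ψ : ℝ → ℝ) (hpos : ∀ w, 0 < w → 0 < ψ w)
    (hanti : AntitoneOn (fun w => ψ w / w) (Ioi 0))
    (h1 : IntegrableOn (fun w => (rp t w - rm t w) * ψ w) (Ioi 0))
    (h2 : IntegrableOn (fun w => (rp t w - rm t w) * w) (Ioi 0))
    (hJ : 0 < ∫ w in Ioi (0 : ℝ), (rp t w - rm t w) * w) :
    0 < ∫ w in Ioi (0 : ℝ), (rp t w - rm t w) * ψ w := by
  set P : Set ℝ := {w | 0 < w ∧ 0 < rp t w - rm t w} with hP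
  have hne : P.Nonempty := by
    by_contra hne
    rw [not_nonempty_iff_eq_empty] at hne
    have : ∫ w in Ioi (0 : ℝ), (rp t w - rm t w) * w ≤ 0 := by
      apply setIntegral_nonpos measurableSet_Ioi
      intro w hw
      have hw0 : 0 < w := hw
      have h3 : ¬ 0 < rp t w - rm t w := fun h => by
        have : w ∈ P := ⟨hw0, h⟩
        rw [hne] at this
        exact this
      nlinarith
    linarith
  obtain ⟨p0, hp0⟩ := hne
  set M0 := sInf ((fun w => ψ w / w) '' P) with hM0
  have hbdd : BddBelow ((fun w => ψ w / w) '' P) := by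
    refine ⟨0, ?_⟩
    rintro _ ⟨w, hw, rfl⟩
    exact (div_pos (hpos w hw.1) hw.1).le
  have hP1 : ∀ w ∈ P, w < 1 := by
    intro w hw
    by_contra h
    have h3 : rp t w = 0 := by unfold rp; rw [if_neg h]
    have h4 := rm_pos t hw.1
    have h5 := hw.2
    linarith
  have hM0pos : 0 < M0 := by
    have h3 : ψ 1 / 1 ≤ M0 := by
      apply le_csInf (Set.Nonempty.image _ ⟨p0, hp0⟩)
      rintro _ ⟨w, hw, rfl⟩
      exact hanti (show w ∈ Ioi (0 : ℝ) from hw.1) (mem_Ioi.2 one_pos) (hP1 w hw).le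
    have h4 := hpos 1 one_pos
    rw [div_one] at h3
    linarith
  have hle : ∫ w in Ioi (0 : ℝ), M0 * ((rp t w - rm t w) * w) ≤ ∫ w in Ioi (0 : ℝ), (rp t w - rm t w) * ψ w := by
    apply setIntegral_mono_on (h2.const_mul M0) h1 measurableSet_Ioi
    intro w hw
    have hw0 : 0 < w := hw
    have e : ψ w = (ψ w / w) * w := by field_simp
    by_cases hg : 0 < rp t w - rm t w
    · have h3 : M0 ≤ ψ w / w := csInf_le hbdd ⟨w, ⟨hw0, hg⟩, rfl⟩
      have h4 : M0 * w ≤ ψ w := by
        rw [e]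
        exact mul_le_mul_of_nonneg_right h3 hw0.le
      nlinarith
    · have h3 : ψ w / w ≤ M0 := by
        apply le_csInf (Set.Nonempty.image _ ⟨p0, hp0⟩)
        rintro _ ⟨p, hp, rfl⟩
        apply hanti (show p ∈ Ioi (0 : ℝ) from hp.1) (show w ∈ Ioi (0 : ℝ) from hw0)
        by_contra hpw
        rw [not_le] at hpw
        exact hg (pos_down t ht hw0 hpw.le hp.2)
      have h4 : ψ w ≤ M0 * w := by
        rw [e]
        exact mul_le_mul_of_nonneg_right h3 hw0.le
      nlinarith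
  rw [integral_const_mul] at hle
  have : 0 < M0 * ∫ w in Ioi (0 : ℝ), (rp t w - rm t w) * w := mul_pos hM0pos hJ
  linarith

/-! ### the gamma integrals -/

lemma gam_int {a : ℝ} (ha : 0 < a) : IntegrableOn (fun q : ℝ => q ^ (a - 1) * Real.exp (-q)) (Ioi 0) := by
  have := Real.GammaIntegral_convergent ha
  refine this.congr_fun (fun x _ => ?_) measurableSet_Ioi
  simp only
  ring

lemma gam_val {a : ℝ} (ha : 0 < a) : ∫ q in Ioi (0 : ℝ), q ^ (a - 1) * Real.exp (-q) = Real.Gamma a := by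
  rw [Real.Gamma_eq_integral ha]
  apply setIntegral_congr_fun measurableSet_Ioi
  intro x _
  simp only
  ring

lemma J_pos {s : ℝ} (hs : -1 < s) : IntegrableOn (FF (s + 4) (fun w => w)) (Ioi 0) ∧
    0 < ∫ q in Ioi (0 : ℝ), FF (s + 4) (fun w => w) q := by
  have e : ∀ q ∈ Ioi (0 : ℝ), q ^ (s + 3 - 1) * Real.exp (-q) - q ^ (s + 2 - 1) * Real.exp (-q) = FF (s + 4) (fun w => w) q := by
    intro q hq
    have hq0 : 0 < q := hq
    unfold FF
    rw [show s + 4 - 2 = s + 1 + 1 by ring, show s + 3 - 1 = s + 1 + 1 by ring, show s + 2 - 1 = s + 1 by ring,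
      Real.rpow_add_one hq0.ne']
    field_simp
  have i1 := gam_int (show 0 < s + 3 by linarith)
  have i2 := gam_int (show 0 < s + 2 by linarith)
  refine ⟨(i1.sub i2).congr_fun e measurableSet_Ioi, ?_⟩
  rw [← setIntegral_congr_fun measurableSet_Ioi e, integral_sub i1 i2, gam_val (by linarith), gam_val (by linarith)]
  rw [show s + 3 = (s + 2) + 1 by ring, Real.Gamma_add_one (by linarith)]
  have := Real.Gamma_pos_of_pos (show 0 < s + 2 by linarith)
  nlinarith

/-! ### the theorem -/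

lemma phi_scale (s : ℝ) {c : ℝ} (hc : 0 < c) (x : ℝ) : phi s (c * x) = c ^ s * phi s x := by
  unfold phi
  rw [abs_mul, abs_of_pos hc, Real.mul_rpow hc.le (abs_nonneg x)]
  have : Real.sign (c * x) = Real.sign x := by
    rcases lt_trichotomy x 0 with h | h | h
    · rw [Real.sign_of_neg h, Real.sign_of_neg (mul_neg_of_pos_of_neg hc h)]
    · rw [h]; simp
    · rw [Real.sign_of_pos h, Real.sign_of_pos (mul_pos hc h)]
  rw [this]
  ring

lemma W_eq (s : ℝ) {d D q : ℝ} (hD : 0 < D) (hq : 0 < q) :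
    W s d D q = (q * D) ^ s * eta s (d / D * (1 - 1 / q)) := by
  unfold W eta
  rw [← integral_const_mul]
  apply setIntegral_congr_fun measurableSet_Ioo
  intro w _
  simp only
  have : q * (d + D * w) - d = (q * D) * (w + d / D * (1 - 1 / q)) := by
    field_simp
    ring
  rw [this, phi_scale s (by positivity)]
  ring

lemma eta_bd (ha : T3a) {s : ℝ} (hs : -1 < s) (hanti : AntitoneOn (fun v => eta s v / v) (Ioi 0)) :
    ∃ C : ℝ, 0 ≤ C ∧ ∀ v, |eta s v| ≤ C * (1 + |v|) := by
  obtain ⟨hodd, hall⟩ := ha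
  obtain ⟨hc, hp⟩ := hall s hs
  obtain ⟨C, hC⟩ := isCompact_Icc.exists_bound_of_continuousOn (s := Icc (0 : ℝ) 1) hc.continuousOn
  have hC0 : 0 ≤ C := (norm_nonneg _).trans (hC 0 ⟨le_rfl, zero_le_one⟩)
  have hpos : ∀ v, 0 ≤ v → |eta s v| ≤ C * (1 + |v|) := by
    intro v hv
    rcases le_or_gt v 1 with h | h
    · have h1 := hC v ⟨hv, h⟩
      rw [Real.norm_eq_abs] at h1
      have h2 := abs_nonneg v
      nlinarith
    · have h1 := hanti (mem_Ioi.2 one_pos) (show v ∈ Ioi (0 : ℝ) from by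
        show 0 < v
        linarith) h.le
      simp only [div_one] at h1
      have hv0 : 0 < v := by linarith
      rw [div_le_iff₀ hv0] at h1
      have h2 := hC 1 ⟨zero_le_one, le_rfl⟩
      rw [Real.norm_eq_abs] at h2
      rw [abs_of_pos (hp v hv0), abs_of_pos hv0]
      have h3 : eta s 1 ≤ C := (le_abs_self _).trans h2
      nlinarith
  refine ⟨C, hC0, fun v => ?_⟩
  rcases le_or_gt 0 v with h | h
  · exact hpos v h
  · have := hpos (-v) (by linarith)
    rwa [hodd, abs_neg, abs_neg] at this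

/-- **T4** -/
theorem tT4 (ha : T3a) (hb : T3b) (hc : T3c) : T4 := by
  intro s d D hs hs1 hd hdD
  have hD : 0 < D := by linarith
  have hanti : AntitoneOn (fun v => eta s v / v) (Ioi 0) := by
    rcases lt_or_ge s 0 with h | h
    · exact hc s hs h
    · exact hb s h hs1
  obtain ⟨C, hC0, hC⟩ := eta_bd ha hs hanti
  obtain ⟨hodd, hall⟩ := ha
  obtain ⟨hcont, hpos⟩ := hall s hs
  set κ := d / D with hκ
  have hκ0 : 0 < κ := by positivity
  set ψ : ℝ → ℝ := fun w => eta s (κ * w) with hψ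
  have hψodd : ∀ w, ψ (-w) = -ψ w := by
    intro w
    show eta s (κ * -w) = -eta s (κ * w)
    rw [mul_neg, hodd]
  -- the integrand
  have e1 : ∀ q ∈ Ioi (0 : ℝ), q ^ 2 * Real.exp (-q) * W s d D q = D ^ s * FF (s + 4) ψ q := by
    intro q hq
    have hq0 : 0 < q := hq
    rw [W_eq s hD hq0]
    unfold FF
    rw [Real.mul_rpow hq0.le hD.le, show s + 4 - 2 = s + (2 : ℕ) by push_cast; ring, Real.rpow_add_natCast hq0.ne']
    ring
  rw [setIntegral_congr_fun measurableSet_Ioi e1, integral_const_mul]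
  apply mul_pos (Real.rpow_pos_of_pos hD s)
  have hI : IntegrableOn (FF (s + 4) ψ) (Ioi 0) := by
    have i1 := gam_int (show 0 < s + 3 by linarith)
    have i2 := gam_int (show 0 < s + 2 by linarith)
    have i3 := (i1.const_mul (C * (1 + κ))).add (i2.const_mul (C * κ))
    refine Integrable.mono' i3 ?_ ?_
    · apply ContinuousOn.aestronglyMeasurable _ measurableSet_Ioi
      intro q hq
      have hq0 : 0 < q := hq
      unfold FF
      apply ContinuousAt.continuousWithinAt
      have c1 : ContinuousAt (fun q : ℝ => q ^ (s + 4 - 2)) q := Real.continuousAt_rpow_const _ _ (Or.inl hq0.ne')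
      have c2 : ContinuousAt (fun q : ℝ => Real.exp (-q)) q := by fun_prop
      have c3 : ContinuousAt (fun q : ℝ => κ * (1 - 1 / q)) q := by
        have : ContinuousAt (fun q : ℝ => 1 / q) q := by
          simpa using (continuousAt_inv₀ hq0.ne')
        exact continuousAt_const.mul (continuousAt_const.sub this)
      have c4 : ContinuousAt (fun q : ℝ => ψ (1 - 1 / q)) q :=
        ContinuousAt.comp (g := eta s) hcont.continuousAt c3
      exact (c1.mul c2).mul c4
    · rw [ae_restrict_iff' measurableSet_Ioi]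
      refine Eventually.of_forall fun q hq => ?_
      have hq0 : 0 < q := hq
      unfold FF
      rw [Real.norm_eq_abs, abs_mul, abs_mul, abs_of_pos (Real.rpow_pos_of_pos hq0 _), abs_of_pos (Real.exp_pos _)]
      have h1 : |ψ (1 - 1 / q)| ≤ C * (1 + κ + κ / q) := by
        refine (hC _).trans ?_
        apply mul_le_mul_of_nonneg_left _ hC0
        rw [abs_mul, abs_of_pos hκ0]
        have h2 : |1 - 1 / q| ≤ 1 + 1 / q := by
          rw [abs_le]
          have : 0 < 1 / q := by positivity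
          constructor <;> linarith
        have h3 := mul_le_mul_of_nonneg_left h2 hκ0.le
        have h4 : κ * (1 + 1 / q) = κ + κ / q := by ring
        linarith
      have h5 : 0 ≤ q ^ (s + 4 - 2) * Real.exp (-q) := by positivity
      refine (mul_le_mul_of_nonneg_left h1 h5).trans (le_of_eq ?_)
      simp only [Pi.add_apply]
      rw [show s + 4 - 2 = s + 1 + 1 by ring, show s + 3 - 1 = s + 1 + 1 by ring, show s + 2 - 1 = s + 1 by ring,
        Real.rpow_add_one hq0.ne']
      field_simp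
  obtain ⟨f1, f2⟩ := subst_all (s + 4) ψ hψodd hI
  obtain ⟨j1, j2⟩ := J_pos hs
  obtain ⟨g1, g2⟩ := subst_all (s + 4) (fun w => w) (fun w => rfl) j1
  rw [f1]
  rw [g1] at j2
  apply main_pos (s + 4) (by linarith) ψ (fun w hw => hpos _ (by positivity)) _ f2 g2 j2
  intro x hx y hy hxy
  have hx0 : 0 < x := hx
  have hy0 : 0 < y := hy
  have h1 := hanti (show κ * x ∈ Ioi (0 : ℝ) from by show 0 < κ * x; positivity)
    (show κ * y ∈ Ioi (0 : ℝ) from by show 0 < κ * y; positivity) (mul_le_mul_of_nonneg_left hxy hκ0.le)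
  simp only at h1 ⊢
  have h2 : ψ y / y = κ * (eta s (κ * y) / (κ * y)) := by
    show eta s (κ * y) / y = _
    field_simp
  have h3 : ψ x / x = κ * (eta s (κ * x) / (κ * x)) := by
    show eta s (κ * x) / x = _
    field_simp
  rw [h2, h3]
  exact mul_le_mul_of_nonneg_left h1 hκ0.le

end Pool.Agent.Q224.CQ
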